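import Pool.Agent.H.MP_21485e_lc.B

set_option autoImplicit false

namespace Pool.Agent.Results.MP_21485e_lc.Hard
open Pool.Agent.Lib.CX Pool.Agent.H.MP_21485e_lc

/-- the subgraph present at time `τ`; the last one stays for ever -/
def pres : List (List Bool × ℕ) → ℕ → List Bool
  | [], _ => []
  | [x], _ => x.1
  | x :: y :: r, τ => if τ < x.2 then x.1 else pres (y :: r) (τ - x.2)

/-- the edge from the centre to leaf `i` is available at time `τ` -/
def Avail (L : List (List Bool × ℕ)) (i τ : ℕ) : Prop := (pres L τ)[i]? = some true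

/-- number of leaves, start vertex (`none` is the centre), deadline, schedule -/
abbrev Inst := ℕ × Option ℕ × ℕ × List (List Bool × ℕ)

def Valid (Δ : ℕ) (a : Inst) : Prop :=
  (∀ i, a.2.1 = some i → i < a.1) ∧ (∀ x ∈ a.2.2.2, x.1.length = a.1) ∧
    ∀ i < a.1, ∀ τ, ∃ τ', τ ≤ τ' ∧ τ' < τ + Δ ∧ Avail a.2.2.2 i τ'

def Covers (a : Inst) : Prop :=
  ∃ w : ℕ → Option ℕ, w 0 = a.2.1 ∧
    (∀ τ, w (τ + 1) = w τ ∨ ∃ i < a.1, Avail a.2.2.2 i τ ∧
      ((w τ = none ∧ w (τ + 1) = some i) ∨ (w τ = some i ∧ w (τ + 1) = none))) ∧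
    (∃ τ ≤ a.2.2.1, w τ = none) ∧ ∀ i < a.1, ∃ τ ≤ a.2.2.1, w τ = some i

lemma pres_eq (l : List (List Bool)) (g : List Bool) (τ : ℕ) :
    pres (l.map (·, 1) ++ [(g, 1)]) τ = l.getD τ g := by
  induction l generalizing τ with
  | nil => simp [pres]
  | cons x l ih =>
    obtain ⟨y, r, h⟩ : ∃ y r, l.map (·, 1) ++ [(g, 1)] = y :: r := by cases l <;> simp
    rw [List.map_cons, List.cons_append, h, pres, ← h, ih]
    cases τ <;> simp

def T (φ : List (Cl3 ℕ)) : ℕ := 3 * φ.length * (4 * φ.length + 9) + 2 * φ.length + 3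

def red (φ : List (Cl3 ℕ)) : Inst :=
  ((Ls φ.length).length, none, T φ,
    ((List.range (T φ)).map fun τ => (Ls φ.length).map fun d => decide (av φ d τ)).map (·, 1) ++
      [((Ls φ.length).map fun _ => true, 1)])

lemma avail_iff {φ : List (Cl3 ℕ)} {i : ℕ} (hi : i < (Ls φ.length).length) (τ : ℕ) :
    Avail (red φ).2.2.2 i τ ↔ τ < T φ → av φ (Ls φ.length)[i] τ := by
  unfold Avail red
  rw [pres_eq]
  by_cases h : τ < T φ
  · rw [List.getD_eq_getElem _ _ (by simpa using h)]; simp [hi, h]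
  · rw [List.getD_eq_default _ _ (by simpa using h)]; simp [hi, h]

lemma valid {Δ : ℕ} (h : 2 ≤ Δ) (φ : List (Cl3 ℕ)) : Valid Δ (red φ) := by
  refine ⟨by simp [red], ?_, fun i hi τ => ?_⟩
  · simp only [red, List.mem_append, List.mem_map, List.mem_singleton]
    rintro x (⟨_, ⟨τ, -, rfl⟩, rfl⟩ | rfl) <;> simp
  · rcases av_or φ (Ls φ.length)[i] τ with a | a
    · exact ⟨τ, le_rfl, by omega, (avail_iff hi _).2 fun _ => a⟩
    · exact ⟨τ + 1, by omega, by omega, (avail_iff hi _).2 fun _ => a⟩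

lemma pt_Ls {α : Type} [Enc α] {n : α → ℕ} (h : PT n) (h' : PB n) : PT fun a => Ls (n a) := by
  unfold Ls; fun_prop

@[fun_prop] lemma pt_lits {α : Type} [Enc α] {φ : α → List (Cl3 ℕ)} {n : α → ℕ} (h : PT φ) (h' : PT n) :
    PT fun a => lits (φ a) (n a) := by
  unfold lits; fun_prop

lemma pt_av {α : Type} [Enc α] {φ : α → List (Cl3 ℕ)} {d : α → ℕ × ℕ × ℕ} {n : α → ℕ} (h : PT φ)
    (hd : PT d) (h' : PT n) : PT fun a => decide (av (φ a) (d a) (n a)) := by
  unfold av cav; fun_prop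

lemma pt_red : PT red := by
  have h1 : PT fun φ : List (Cl3 ℕ) => Ls φ.length := pt_Ls (by fun_prop) (by fun_prop)
  have h2 : PT T := by unfold T; fun_prop
  have h3 : PB T := by unfold T; fun_prop
  refine h1.length.pair ((PT.const _).pair (h2.pair (PT.append (PT.map (by fun_prop)
    (PT.map (PT.map (pt_av (by fun_prop) (by fun_prop) (by fun_prop)) (h1.comp PT.fst')) (h2.range h3)))
    (PT.cons ((PT.map (by fun_prop) h1).pair (PT.const _)) (PT.const _)))))

theorem result (Δ : ℕ) (hΔ : 2 ≤ Δ) : NPHard fun a : {a : Inst // Valid Δ a} => Covers a.1 := by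
  refine NPHard.of_sat3 (fun φ => ⟨red φ, valid hΔ φ⟩) (PT.subtype pt_red _) fun φ hv => ?_
  have h1 : Covers (red φ) ↔ Tour (· < (Ls φ.length).length) (Avail (red φ).2.2.2) (T φ) :=
    ⟨fun ⟨w, a, b, _, c⟩ => ⟨w, a, b, c⟩, fun ⟨w, a, b, c⟩ => ⟨w, a, b, ⟨0, Nat.zero_le _, a⟩, c⟩⟩
  refine Iff.trans ?_ (h1.trans tour_iff).symm
  constructor
  · intro h
    obtain ⟨e, y, a, b⟩ := yes hv h
    refine ⟨fun i => e ((Ls φ.length).getD i 0), fun i => y ((Ls φ.length).getD i 0),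
      fun i hi => ?_, fun i hi j hj hn => ?_⟩
    · simp only [List.getD_eq_getElem _ _ hi, avail_iff hi]
      obtain ⟨a1, a2, a3, a4⟩ := a _ (List.mem_toFinset.2 (List.getElem_mem hi))
      exact ⟨a1, a2, fun _ => a3, a4.imp_right fun h => ⟨h.1, fun _ => h.2⟩⟩
    · simp only [List.getD_eq_getElem _ _ hi, List.getD_eq_getElem _ _ hj]
      exact b _ (List.mem_toFinset.2 (List.getElem_mem hi)) _ (List.mem_toFinset.2 (List.getElem_mem hj))
        fun h => hn ((nodup_Ls _).getElem_inj_iff.1 h)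
  · rintro ⟨e, y, a, b⟩
    refine no (e := fun d => e ((Ls φ.length).idxOf d)) (y := fun d => y ((Ls φ.length).idxOf d)) hv
      ⟨fun d hd => ?_, fun d hd d' hd' hn => ?_⟩
    · have hi := List.idxOf_lt_length_iff.2 (List.mem_toFinset.1 hd)
      obtain ⟨a1, a2, a3, a4⟩ := a _ hi
      simp only [avail_iff hi, List.getElem_idxOf] at a3 a4
      exact ⟨a1, a2, a3 (by omega), a4.imp_right fun h => ⟨h.1, h.2 (by omega)⟩⟩
    · exact b _ (List.idxOf_lt_length_iff.2 (List.mem_toFinset.1 hd)) _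
        (List.idxOf_lt_length_iff.2 (List.mem_toFinset.1 hd'))
        fun h => hn ((List.idxOf_inj (List.mem_toFinset.1 hd)).1 h)

end Pool.Agent.Results.MP_21485e_lc.Hard
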